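import Pool.Agent.Lib.MP_d610d0_nt.CA.SC.Stm
import Pool.Agent.Lib.MP_d610d0_nt.CA.FP.Defs

set_option autoImplicit false

/-!
Project CA, section FP: splitting five or more sizes, if one of them (`l1`) has sum at most `2` with each of
the others.
-/

namespace Pool.Agent.CA.FP

open Finset

/-- it is enough to find a subset of the complement of `l0` with sum between `1` and `2 - x l0` -/
private theorem spl_fin {k : ℕ} (x : Fin k → ℝ) (hs : ∑ l, x l = 3) (l0 : Fin k)
    (S1 : Finset (Fin k)) (hS : S1 ⊆ univ.erase l0) (h1 : 1 ≤ ∑ l ∈ S1, x l)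
    (h2 : ∑ l ∈ S1, x l ≤ 2 - x l0) :
    ∃ (l0 : Fin k) (S1 S2 : Finset (Fin k)), l0 ∉ S1 ∧ l0 ∉ S2 ∧ Disjoint S1 S2 ∧
    insert l0 (S1 ∪ S2) = univ ∧ 1 ≤ ∑ l ∈ S1, x l ∧ 1 ≤ ∑ l ∈ S2, x l := by
  refine ⟨l0, S1, univ.erase l0 \ S1, fun h => ?_, fun h => ?_, Finset.disjoint_sdiff, ?_, h1, ?_⟩
  · exact (Finset.mem_erase.1 (hS h)).1 rfl
  · exact (Finset.mem_erase.1 (Finset.mem_sdiff.1 h).1).1 rfl
  · rw [Finset.union_sdiff_of_subset hS, Finset.insert_erase (Finset.mem_univ _)]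
  · have e1 := Finset.sum_sdiff (f := x) hS
    have e2 := Finset.add_sum_erase univ x (Finset.mem_univ l0)
    rw [hs] at e2
    linarith

theorem splS (k : ℕ) (x : Fin k → ℝ) (hk : 5 ≤ k) (hx0 : ∀ l, 0 ≤ x l) (a : Fin k)
    (ha : ∀ l, l ≠ a → x a + x l ≤ 2) (hs : ∑ l, x l = 3) :
    ∃ (l0 : Fin k) (S1 S2 : Finset (Fin k)), l0 ∉ S1 ∧ l0 ∉ S2 ∧ Disjoint S1 S2 ∧
    insert l0 (S1 ∪ S2) = univ ∧ 1 ≤ ∑ l ∈ S1, x l ∧ 1 ≤ ∑ l ∈ S2, x l := by
  have hne : (univ : Finset (Fin k)).Nonempty := ⟨⟨0, by omega⟩, Finset.mem_univ _⟩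
  obtain ⟨l0, _, h0⟩ := Finset.exists_min_image univ x hne
  have hc0 : (univ.erase l0).card = k - 1 := by
    rw [Finset.card_erase_of_mem (Finset.mem_univ _), Finset.card_univ, Fintype.card_fin]
  have hne1 : (univ.erase l0).Nonempty := by
    rw [← Finset.card_pos, hc0]
    omega
  obtain ⟨l1, hl1, h1⟩ := Finset.exists_max_image (univ.erase l0) x hne1
  have hc1 : ((univ.erase l0).erase l1).card = k - 2 := by
    rw [Finset.card_erase_of_mem hl1, hc0]
    omega
  have hne2 : ((univ.erase l0).erase l1).Nonempty := by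
    rw [← Finset.card_pos, hc1]
    omega
  obtain ⟨l2, hl2, h2⟩ := Finset.exists_min_image ((univ.erase l0).erase l1) x hne2
  have hc2 : (((univ.erase l0).erase l1).erase l2).card = k - 3 := by
    rw [Finset.card_erase_of_mem hl2, hc1]
    omega
  have e0 := Finset.add_sum_erase univ x (Finset.mem_univ l0)
  have e1 := Finset.add_sum_erase (univ.erase l0) x hl1
  have e2 := Finset.add_sum_erase ((univ.erase l0).erase l1) x hl2
  rw [hs] at e0
  have e3 : 2 * x l2 ≤ ∑ l ∈ ((univ.erase l0).erase l1).erase l2, x l := by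
    have h3 := Finset.card_nsmul_le_sum (((univ.erase l0).erase l1).erase l2) x (x l2)
      (fun l hl => h2 l (Finset.mem_of_mem_erase hl))
    rw [hc2, nsmul_eq_mul] at h3
    have h4 : (2 : ℝ) ≤ ((k - 3 : ℕ) : ℝ) := by
      have h5 : 2 ≤ k - 3 := by omega
      exact_mod_cast h5
    have h6 := hx0 l2
    nlinarith
  have h02 : x l0 ≤ x l2 := h0 l2 (Finset.mem_univ _)
  have hne01 : l0 ≠ l1 := fun h => (Finset.mem_erase.1 hl1).1 h.symm
  have hx1 : x l0 + x l1 ≤ 2 := by
    by_cases h : l1 = a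
    · have h3 := ha l0 (fun h4 => hne01 (h4.trans h.symm))
      rw [← h] at h3
      linarith
    · have h3 := ha l1 h
      have h4 := h0 a (Finset.mem_univ _)
      linarith
  have hp0 := hx0 l0
  by_cases ht : 1 ≤ x l1
  · refine spl_fin x hs l0 {l1} (Finset.singleton_subset_iff.2 hl1) ?_ ?_
    · rw [Finset.sum_singleton]
      exact ht
    · rw [Finset.sum_singleton]
      linarith
  push Not at ht
  by_cases hts : x l1 ≤ 1 - x l0
  · have hTne : ((univ.erase l0).powerset.filter (fun S => 1 ≤ ∑ l ∈ S, x l)).Nonempty := by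
      refine ⟨univ.erase l0, Finset.mem_filter.2 ⟨Finset.mem_powerset.2 (Finset.Subset.refl _), ?_⟩⟩
      have h3 : x l0 ≤ x l1 := h0 l1 (Finset.mem_univ _)
      linarith
    obtain ⟨S1, hS1, hmin⟩ := Finset.exists_min_image _ (fun S : Finset (Fin k) => S.card) hTne
    obtain ⟨hS2, hS3⟩ := Finset.mem_filter.1 hS1
    rw [Finset.mem_powerset] at hS2
    refine spl_fin x hs l0 S1 hS2 hS3 ?_
    have hSne : S1.Nonempty := by
      rcases S1.eq_empty_or_nonempty with h | h
      · rw [h, Finset.sum_empty] at hS3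
        linarith
      · exact h
    obtain ⟨l, hl⟩ := hSne
    have h5 : ¬ 1 ≤ ∑ l' ∈ S1.erase l, x l' := by
      intro h6
      have h7 := hmin (S1.erase l) (Finset.mem_filter.2 ⟨Finset.mem_powerset.2
        ((Finset.erase_subset _ _).trans hS2), h6⟩)
      have h8 := Finset.card_erase_lt_of_mem hl
      omega
    push Not at h5
    have h6 := Finset.add_sum_erase S1 x hl
    have h7 := h1 l (hS2 hl)
    linarith
  · push Not at hts
    have hne12 : l1 ≠ l2 := fun h => (Finset.mem_erase.1 hl2).1 h.symm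
    refine spl_fin x hs l0 {l1, l2} ?_ ?_ ?_
    · intro l hl
      rcases Finset.mem_insert.1 hl with h | h
      · rw [h]; exact hl1
      · rw [Finset.mem_singleton.1 h]
        exact Finset.mem_of_mem_erase hl2
    · rw [Finset.sum_pair hne12]
      linarith
    · rw [Finset.sum_pair hne12]
      linarith

end Pool.Agent.CA.FP
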