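import Pool.Agent.Lib.MP_d610d0_nt.CA.SC.p_bxP
import Pool.Agent.Lib.MP_d610d0_nt.CA.FP.SC.splS

set_option autoImplicit false

/-!
Project CA, section FP: boxes of primes with a small first prime (adapted from `SC/p_bxP.lean`).
-/

namespace Pool.Agent.CA.FP

open Finset Filter
open Pool.Agent.CH (wJ wL)
open Pool.Agent.CA.SC
open Pool.Agent.CH.D (dp xj R_spc)

/-- Boxes of at least five primes, the first one small. -/
def R_bxS : Prop := ∀ k A B : ℕ, 4 ≤ k → ∃ E0 : ℕ, ∀ E : ℕ, E0 ≤ E → ∀ᶠ J : ℕ in atTop,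
  ∀ (j r : ℕ) (χ : DirichletCharacter ℂ r) (N a b : Fin (k + 1) → ℕ), j ∈ Ioc J (2 * J) → 1 ≤ r →
  (r : ℝ) ≤ (Real.log J) ^ B → χ.IsPrimitive → (∀ l, 1 ≤ N l ∧ N l ≤ 2 * (a l + 1) ∧ b l ≤ N l) →
  (∀ l, (J : ℝ) ^ (1 / 12 : ℝ) ≤ N l) →
  (∀ l, l ≠ 0 → (N 0 : ℝ) * N l ≤ 4 * (J : ℝ) ^ (2 - 1 / 1000 : ℝ)) →
  ‖TS (fun l => pf χ (a l) (b l)) (fun l => 2 * N l) (dW ((Real.log J) ^ E) J j)‖
    ≤ (J : ℝ) ^ 3 / (Real.log J) ^ A

theorem p_bxS (hbxs : R_bxs) (hprk : R_prk) (hspc : R_spc) : R_bxS := by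
  intro k' A B hk'
  have hk : 5 ≤ (k' + 1) := by omega
  obtain ⟨A', hA'⟩ := hbxs (k' + 1) A 1
  obtain ⟨C0, hC0⟩ := hprk A' B
  obtain ⟨E1, hE1⟩ := hA' C0
  refine ⟨max E1 1, fun E hE => ?_⟩
  have hlogt : Tendsto (fun J : ℕ => Real.log (J : ℝ)) atTop atTop :=
    Real.tendsto_log_atTop.comp tendsto_natCast_atTop_atTop
  filter_upwards [hE1 E (le_trans (le_max_left _ _) hE), hC0,
    hlogt.eventually_ge_atTop (4000 + ((k' + 1 : ℕ) : ℝ)), eventually_ge_atTop 1] with J hJ1 hJ2 hL hJ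
  intro j r χ N a b hj hr1 hrB hχ hN hNJ hNN
  set L := Real.log (J : ℝ) with hLdef
  have hk0 : (0 : ℝ) ≤ ((k' + 1 : ℕ) : ℝ) := Nat.cast_nonneg (k' + 1)
  have hL200 : 4000 ≤ L := by linarith
  have hJpos : (0 : ℝ) < J := by exact_mod_cast hJ
  have hlam : (10 : ℝ) ≤ L ^ E := by
    calc (10 : ℝ) ≤ L ^ 1 := by rw [pow_one]; linarith
      _ ≤ L ^ E := pow_le_pow_right₀ (by linarith) (le_trans (le_max_right _ _) hE)
  set P : ℝ := ∏ l, (N l : ℝ) with hP
  have hN1 : ∀ l, (1 : ℝ) ≤ N l := fun l => by exact_mod_cast (hN l).1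
  have hPpos : 0 < P := Finset.prod_pos fun l _ => lt_of_lt_of_le one_pos (hN1 l)
  by_cases hcase : (J : ℝ) ^ 3 ≤ 2 * P ∧ P ≤ 2 ^ (k' + 1) * (27 * (J : ℝ) ^ 3)
  swap
  · -- the sum vanishes
    have hz : TS (fun l => pf χ (a l) (b l)) (fun l => 2 * N l) (dW (L ^ E) J j) = 0 := by
      unfold TS
      apply Finset.sum_eq_zero
      intro n hn
      rw [Fintype.mem_piFinset] at hn
      by_contra hne
      have h1 := left_ne_zero_of_mul hne
      have h2 := right_ne_zero_of_mul hne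
      have hs : ∀ l, a l < n l ∧ n l ≤ b l := fun l =>
        bxP_pf_supp χ (a l) (b l) (n l) (Finset.prod_ne_zero_iff.1 h1 l (mem_univ l))
      have hn1 : ∀ l, 1 ≤ n l := fun l => (mem_Icc.1 (hn l)).1
      have hpr1 : 1 ≤ ∏ l, n l := Nat.one_le_iff_ne_zero.2
        (Finset.prod_ne_zero_iff.2 fun l _ => by have := hn1 l; omega)
      obtain ⟨h3, h4⟩ := bxP_dW_supp hspc hJ hj hpr1 hlam h2
      apply hcase
      have hle : ((∏ l, n l : ℕ) : ℝ) ≤ P := by
        rw [Nat.cast_prod]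
        apply Finset.prod_le_prod
        · intro l _; positivity
        · intro l _
          exact_mod_cast (hs l).2.trans (hN l).2.2
      have hge : P ≤ 2 ^ (k' + 1) * ((∏ l, n l : ℕ) : ℝ) := by
        have : (2 : ℝ) ^ (k' + 1) * ((∏ l, n l : ℕ) : ℝ) = ∏ l : Fin (k' + 1), (2 * (n l : ℝ)) := by
          rw [Finset.prod_mul_distrib, Nat.cast_prod]
          simp
        rw [this]
        apply Finset.prod_le_prod
        · intro l _; positivity
        · intro l _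
          have h5 := (hN l).2.1
          have h6 := (hs l).1
          have : N l ≤ 2 * n l := by omega
          exact_mod_cast this
      have h3' : (J : ℝ) ^ 3 < 2 * ((∏ l, n l : ℕ) : ℝ) := by exact_mod_cast h3
      have h4' : ((∏ l, n l : ℕ) : ℝ) < 27 * (J : ℝ) ^ 3 := by exact_mod_cast h4
      constructor
      · linarith
      · refine hge.trans ?_
        exact mul_le_mul_of_nonneg_left h4'.le (by positivity)
    rw [hz, norm_zero]
    positivity
  obtain ⟨hlo, hhi⟩ := hcase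
  -- Box
  have hbox : Box (k' + 1) J N (fun l => pf χ (a l) (b l)) := by
    refine ⟨fun l => (hN l).1, fun l n => ?_, ?_, ?_⟩
    · refine (bxP_pf_norm χ (a l) (b l) n).trans ?_
      show (1 : ℝ) ≤ L ^ 2
      nlinarith
    · have h2 : (2 : ℝ) ≤ 2 ^ ((k' + 1) + 5) := by
        calc (2 : ℝ) = 2 ^ 1 := by norm_num
          _ ≤ 2 ^ ((k' + 1) + 5) := pow_le_pow_right₀ (by norm_num) (by omega)
      calc (J : ℝ) ^ 3 ≤ 2 * P := hlo
        _ ≤ 2 ^ ((k' + 1) + 5) * P := mul_le_mul_of_nonneg_right h2 hPpos.le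
    · calc P ≤ 2 ^ (k' + 1) * (27 * (J : ℝ) ^ 3) := hhi
        _ ≤ 2 ^ (k' + 1) * (32 * (J : ℝ) ^ 3) := by gcongr; norm_num
        _ = 2 ^ ((k' + 1) + 5) * (J : ℝ) ^ 3 := by ring
  -- logarithms
  set S : ℝ := ∑ l, Real.log (N l) with hS
  have hSP : S = Real.log P := by
    rw [hS, hP, Real.log_prod]
    intro l _
    have := hN1 l
    positivity
  have hlog2 : Real.log 2 ≤ 1 := by
    have := Real.log_two_lt_d9
    linarith
  have hSlo : 3 * L - 1 ≤ S := by
    rw [hSP]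
    have h1 : Real.log ((J : ℝ) ^ 3) ≤ Real.log (2 * P) :=
      Real.log_le_log (by positivity) hlo
    rw [Real.log_pow, Real.log_mul (by norm_num) hPpos.ne'] at h1
    push_cast at h1
    rw [← hLdef] at h1
    linarith
  have hSpos : 0 < S := by linarith
  have hNpair : ∀ l, l ≠ 0 → Real.log (N 0) + Real.log (N l) ≤ 2 + (2 - 1 / 1000) * L := by
    intro l hl
    have h1 := hNN l hl
    have h0 : (0 : ℝ) < N 0 := lt_of_lt_of_le one_pos (hN1 0)
    have h0' : (0 : ℝ) < N l := lt_of_lt_of_le one_pos (hN1 l)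
    have h2 := Real.log_le_log (mul_pos h0 h0') h1
    rw [Real.log_mul h0.ne' h0'.ne', Real.log_mul (by norm_num) (by positivity),
      Real.log_rpow hJpos, ← hLdef] at h2
    have h3 : Real.log 4 ≤ 2 := by
      rw [show (4 : ℝ) = 2 ^ 2 by norm_num, Real.log_pow]
      push_cast
      linarith
    linarith
  have hNlog : ∀ l, Real.log (N l) ≤ 2 + (2 - 1 / 1000) * L := by
    intro l
    by_cases hl : l = 0
    · have h1 : (1 : Fin (k' + 1)) ≠ 0 := by
        have : Fact (2 ≤ k' + 1) := ⟨by omega⟩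
        intro h
        have h2 := congrArg Fin.val h
        rw [Fin.val_one', Fin.val_zero, Nat.mod_eq_of_lt (by omega)] at h2
        omega
      have h2 := hNpair 1 h1
      have h3 := Real.log_nonneg (hN1 1)
      rw [hl]
      linarith
    · have h2 := hNpair l hl
      have h3 := Real.log_nonneg (hN1 0)
      linarith
  obtain ⟨l0, S1, S2, hl1, hl2, hdis, hun, hs1, hs2⟩ := splS (k' + 1)
    (fun l => 3 * Real.log (N l) / S) hk
    (fun l => by
      have := Real.log_nonneg (hN1 l)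
      positivity) 0
    (fun l hl => by
      show 3 * Real.log (N 0) / S + 3 * Real.log (N l) / S ≤ 2
      rw [← add_div, div_le_iff₀ hSpos]
      have := hNpair l hl
      linarith)
    (by
      rw [← Finset.sum_div, ← Finset.mul_sum, ← hS]
      field_simp)
  have key : ∀ T : Finset (Fin (k' + 1)), 1 ≤ ∑ l ∈ T, 3 * Real.log (N l) / S →
      (J : ℝ) ≤ L ^ 1 * ∏ l ∈ T, (N l : ℝ) := by
    intro T hT
    rw [← Finset.sum_div, ← Finset.mul_sum, le_div_iff₀ hSpos] at hT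
    have h1 : L - 1 ≤ ∑ l ∈ T, Real.log (N l) := by linarith
    have h2 : ∏ l ∈ T, (N l : ℝ) = Real.exp (∑ l ∈ T, Real.log (N l)) := by
      rw [Real.exp_sum]
      apply Finset.prod_congr rfl
      intro l _
      rw [Real.exp_log (lt_of_lt_of_le one_pos (hN1 l))]
    rw [h2, pow_one]
    have h3 : Real.exp (L - 1) ≤ Real.exp (∑ l ∈ T, Real.log (N l)) := Real.exp_le_exp.2 h1
    have h4 : Real.exp (L - 1) = J / Real.exp 1 := by
      rw [Real.exp_sub, hLdef, Real.exp_log hJpos]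
    have h5 : Real.exp 1 ≤ 3 := by
      have := Real.exp_one_lt_d9
      linarith
    calc (J : ℝ) = Real.exp 1 * (J / Real.exp 1) := by field_simp
      _ ≤ L * (J / Real.exp 1) := by
          apply mul_le_mul_of_nonneg_right _ (by positivity)
          linarith
      _ = L * Real.exp (L - 1) := by rw [h4]
      _ ≤ L * Real.exp (∑ l ∈ T, Real.log (N l)) :=
          mul_le_mul_of_nonneg_left h3 (by linarith)
  refine hJ1 j N (fun l => pf χ (a l) (b l)) l0 S1 S2 hj hbox hl1 hl2 hdis hun (key S1 hs1)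
    (key S2 hs2) ?_
  intro θ hθ1 hθ2
  refine hJ2 r χ (N l0) (a l0) (b l0) θ hr1 hrB hχ (hN l0).2.2 ?_ ?_ hθ2 (Or.inr hθ1)
  · have h1 := hNJ l0
    have h2 : Real.log ((J : ℝ) ^ (1 / 12 : ℝ)) ≤ Real.log (N l0 : ℝ) :=
      Real.log_le_log (by positivity) h1
    rw [Real.log_rpow hJpos, ← hLdef] at h2
    linarith
  · have := hNlog l0
    linarith

end Pool.Agent.CA.FP
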