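import Pool.Agent.Lib.MP_d610d0_nt.CA.SC.Stm2
import Pool.Agent.Lib.MP_d610d0_nt.CA.FP.SC.bxS

set_option autoImplicit false

/-!
Project CA, section FP: comparison of the windows for products of primes with a small first prime
(adapted from `SC/p_CMB.lean`).
-/

namespace Pool.Agent.CA.FP

open Finset Filter
open Pool.Agent.CH (wJ wL)
open Pool.Agent.CA.SC
open Pool.Agent.CH.D (R_spc)

private theorem CMS_len {J : ℕ} (hJ : 1 ≤ J) (hL : 20 ≤ Real.log J) :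
    27 * J ^ 3 ≤ 2 ^ (Nat.clog 2 (27 * J ^ 3)) ∧
      ((Nat.clog 2 (27 * J ^ 3) + 1 : ℕ) : ℝ) ≤ 6 * Real.log J := by
  have hJ0 : (0 : ℝ) < J := by exact_mod_cast hJ
  refine ⟨Nat.le_pow_clog (by norm_num) _, ?_⟩
  set K := Nat.clog 2 (27 * J ^ 3) with hK
  have hX : 1 < 27 * J ^ 3 := by
    have : 1 ≤ J ^ 3 := Nat.one_le_pow _ _ hJ
    omega
  have h1 : 2 ^ (K - 1) < 27 * J ^ 3 := Nat.pow_pred_clog_lt_self (by norm_num) hX
  have h2 : ((2 : ℝ)) ^ (K - 1) ≤ 27 * (J : ℝ) ^ 3 := by exact_mod_cast h1.le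
  have h3 := Real.log_le_log (by positivity) h2
  rw [Real.log_pow, Real.log_mul (by norm_num) (by positivity), Real.log_pow] at h3
  have h4 : Real.log 27 ≤ 4 := by
    rw [Real.log_le_iff_le_exp (by norm_num)]
    have h5 : Real.exp 4 = Real.exp 1 ^ 4 := by rw [← Real.exp_nat_mul]; norm_num
    rw [h5]
    have h6 : (2.7 : ℝ) ≤ Real.exp 1 := by
      have := Real.exp_one_gt_d9
      linarith only [this]
    calc (27 : ℝ) ≤ 2.7 ^ 4 := by norm_num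
      _ ≤ Real.exp 1 ^ 4 := pow_le_pow_left₀ (by norm_num) h6 4
  have h5 : (0.69 : ℝ) ≤ Real.log 2 := by
    have := Real.log_two_gt_d9
    linarith only [this]
  have h6 : ((K - 1 : ℕ) : ℝ) * 0.69 ≤ ((K - 1 : ℕ) : ℝ) * Real.log 2 :=
    mul_le_mul_of_nonneg_left h5 (Nat.cast_nonneg _)
  have h7 : (K : ℝ) ≤ ((K - 1 : ℕ) : ℝ) + 1 := by
    have : K ≤ (K - 1) + 1 := by omega
    exact_mod_cast this
  push_cast at h3 ⊢
  linarith only [h3, h4, h6, h7, hL]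

private theorem CMS_mul {k r : ℕ} (χ : DirichletCharacter ℂ r) (t : Fin k → ℕ) :
    ∏ l, χ (t l : ZMod r) = χ ((∏ l, t l : ℕ) : ZMod r) := by
  rw [Nat.cast_prod, map_prod]

private theorem CMS_TS {k r J j : ℕ} {lam : ℝ} (χ : DirichletCharacter ℂ r) (a b M : Fin k → ℕ)
    (w : ℕ → ℂ)
    (hw : ∀ n, 1 ≤ n → w n = χ (n : ZMod r) * dW lam J j n) :
    TS (fun l n => if n.Prime ∧ a l < n ∧ n ≤ b l then 1 else 0) M w =
      TS (fun l => pf χ (a l) (b l)) M (dW lam J j) := by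
  unfold TS
  apply sum_congr rfl
  intro t ht
  have h1 : 1 ≤ ∏ l, t l := by
    apply Nat.one_le_iff_ne_zero.2
    rw [prod_ne_zero_iff]
    intro l _
    have := (mem_Icc.1 (Fintype.mem_piFinset.1 ht l)).1
    omega
  rw [hw _ h1]
  have h2 : ∏ l, pf χ (a l) (b l) (t l) =
      (∏ l, (if (t l).Prime ∧ a l < t l ∧ t l ≤ b l then (1 : ℂ) else 0)) *
        χ ((∏ l, t l : ℕ) : ZMod r) := by
    rw [← CMS_mul, ← prod_mul_distrib]
    apply prod_congr rfl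
    intro l _
    unfold pf
    split_ifs <;> simp
  rw [h2]
  ring

private theorem CMS_one {k r J j : ℕ} {lam : ℝ} (χ : DirichletCharacter ℂ r)
    (lo hi : Fin (k + 1) → ℝ) (s : Fin (k + 1) → ℕ) (Bd : ℝ) (hBd : 0 ≤ Bd) (hJ1 : 1 ≤ J)
    (hb : BoxSJ k J lo hi)
    (hP : ∀ (N a b : Fin (k + 1) → ℕ), (∀ l, 1 ≤ N l ∧ N l ≤ 2 * (a l + 1) ∧ b l ≤ N l) →
      (∀ l, (J : ℝ) ^ (1 / 12 : ℝ) ≤ N l) →
      (∀ l, l ≠ 0 → (N 0 : ℝ) * N l ≤ 4 * (J : ℝ) ^ (2 - 1 / 1000 : ℝ)) →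
      ‖TS (fun l => pf χ (a l) (b l)) (fun l => 2 * N l) (dW lam J j)‖ ≤ Bd) :
    ‖TS (fun l => pf χ (max (⌈lo l⌉₊ - 1) (2 ^ s l / 2)) (min ⌊hi l⌋₊ (2 ^ s l)))
      (fun l => 2 * 2 ^ s l) (dW lam J j)‖ ≤ Bd := by
  have hJr : (1 : ℝ) ≤ J := by exact_mod_cast hJ1
  have hlo : ∀ i, (J : ℝ) ^ (1 / 12 : ℝ) ≤ lo i := by
    intro i
    refine Fin.cases hb.lo0 (fun i => ?_) i
    exact (Real.rpow_le_rpow_of_exponent_le hJr (by norm_num)).trans (hb.lo1 i)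
  by_cases h : ∀ l, ∃ p : ℕ, p.Prime ∧ max (⌈lo l⌉₊ - 1) (2 ^ s l / 2) < p ∧
      p ≤ min ⌊hi l⌋₊ (2 ^ s l)
  · have hup : ∀ l, ((2 ^ s l : ℕ) : ℝ) ≤ 2 * hi l ∧ 0 ≤ hi l := by
      intro l
      obtain ⟨p, hp, h1, h2⟩ := h l
      rw [max_lt_iff] at h1
      rw [le_min_iff] at h2
      have h4 : (p : ℝ) ≤ hi l := (Nat.le_floor_iff' hp.ne_zero).1 h2.1
      have h5 : 2 ^ s l ≤ 2 * p := by omega
      have h6 : ((2 ^ s l : ℕ) : ℝ) ≤ 2 * p := by exact_mod_cast h5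
      have h7 : (0 : ℝ) ≤ p := Nat.cast_nonneg p
      exact ⟨by linarith only [h4, h6], by linarith only [h4, h7]⟩
    apply hP (fun l => 2 ^ s l)
    · intro l
      refine ⟨Nat.one_le_two_pow, ?_, min_le_right _ _⟩
      have h1 : 2 ^ s l / 2 ≤ max (⌈lo l⌉₊ - 1) (2 ^ s l / 2) := le_max_right _ _
      omega
    · intro l
      obtain ⟨p, hp, h1, h2⟩ := h l
      rw [max_lt_iff] at h1
      rw [le_min_iff] at h2
      have h3 : lo l ≤ p := by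
        rw [← Nat.ceil_le]
        have := hp.one_le
        omega
      refine (hlo l).trans (h3.trans ?_)
      exact_mod_cast h2.2
    · intro l hl
      obtain ⟨i, rfl⟩ := Fin.exists_succ_eq.2 hl
      have h1 := hup 0
      have h2 := hup i.succ
      have h3 := hb.hi1 i
      calc ((2 ^ s 0 : ℕ) : ℝ) * ((2 ^ s i.succ : ℕ) : ℝ) ≤ (2 * hi 0) * (2 * hi i.succ) :=
            mul_le_mul h1.1 h2.1 (Nat.cast_nonneg _) (by linarith only [h1.2])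
        _ = 4 * (hi 0 * hi i.succ) := by ring
        _ ≤ 4 * (J : ℝ) ^ (2 - 1 / 1000 : ℝ) := by linarith only [h3]
  · rw [not_forall] at h
    obtain ⟨l, hl⟩ := h
    have h0 : TS (fun l => pf χ (max (⌈lo l⌉₊ - 1) (2 ^ s l / 2)) (min ⌊hi l⌋₊ (2 ^ s l)))
      (fun l => 2 * 2 ^ s l) (dW lam J j) = 0 := by
      unfold TS
      apply sum_eq_zero
      intro t _
      rw [prod_eq_zero (mem_univ l), zero_mul]
      unfold pf
      exact if_neg (fun h => hl ⟨t l, h⟩)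
    rw [h0, norm_zero]
    exact hBd

/-- The comparison of the windows for boxes with a small first prime. -/
def R_CMS : Prop := ∀ (K' : ℕ) (lo hi : ℕ → Fin (K' + 1) → ℝ), BoxS K' lo hi → ∀ A B : ℕ, ∃ E0 : ℕ,
  ∀ E : ℕ, E0 ≤ E → ∀ᶠ J : ℕ in atTop, ∀ (j r : ℕ) (χ : DirichletCharacter ℂ r),
  j ∈ Ioc J (2 * J) → 1 ≤ r → (r : ℝ) ≤ (Real.log J) ^ B → χ.IsPrimitive →
  ‖∑ n ∈ Icc 1 (27 * J ^ 3), (bx (K' + 1) (lo J) (hi J) n : ℂ) *
    (χ (n : ZMod r) * dW ((Real.log J) ^ E) J j n)‖ ≤ (J : ℝ) ^ 3 / (Real.log J) ^ A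

theorem p_CMS (hdyb : R_dyb) (hbxS : R_bxS) (hspc : R_spc) : R_CMS := by
  classical
  intro K' lo hi hbox A B
  obtain ⟨E0, hE0⟩ := hbxS K' (A + (K' + 1) + 1) B hbox.k4
  refine ⟨max E0 1, fun E hE => ?_⟩
  have hE1 : E0 ≤ E := (le_max_left _ _).trans hE
  have hE2 : 1 ≤ E := (le_max_right _ _).trans hE
  have hlog : Tendsto (fun J : ℕ => Real.log J) atTop atTop :=
    Real.tendsto_log_atTop.comp tendsto_natCast_atTop_atTop
  filter_upwards [hE0 E hE1, hbox.bx, eventually_ge_atTop 1,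
    hlog.eventually_ge_atTop 20, hlog.eventually_ge_atTop (6 ^ (K' + 1) : ℝ)]
    with J hJ hbJ hJ1 hL20 hLk j r χ hj hr hrB hχ
  have hL0 : 0 < Real.log J := by linarith only [hL20]
  obtain ⟨hX, hK⟩ := CMS_len hJ1 hL20
  set K := Nat.clog 2 (27 * J ^ 3) with hKdef
  set lam : ℝ := (Real.log J) ^ E with hlam
  have hlam10 : 10 ≤ lam := by
    calc (10 : ℝ) ≤ Real.log J ^ 1 := by rw [pow_one]; linarith only [hL20]
      _ ≤ Real.log J ^ E := pow_le_pow_right₀ (by linarith only [hL20]) hE2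
  obtain ⟨-, sp2, sp3⟩ := hspc J hJ1
  have hdW : ∀ n, 1 ≤ n → 27 * J ^ 3 < n → dW lam J j n = 0 := by
    intro n hn hn2
    have h1 : wJ J j n = 0 := by
      by_contra hne
      have h3 := (sp2 j hj n hn hne).2
      rw [mem_Ioc] at hj
      have h4 : (j + 1) ^ 3 ≤ (3 * J) ^ 3 := Nat.pow_le_pow_left (by omega) 3
      have h5 : (3 * J) ^ 3 = 27 * J ^ 3 := by ring
      omega
    have h2 : wL lam j n = 0 := by
      by_contra hne
      have h3 := (sp3 j hj n lam hn hlam10 hne).2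
      omega
    unfold dW
    rw [h1, h2]
    simp
  set w : ℕ → ℂ := fun n => if n ≤ 27 * J ^ 3 then χ (n : ZMod r) * dW lam J j n else 0 with hw
  have hw1 : ∀ n, 1 ≤ n → w n = χ (n : ZMod r) * dW lam J j n := by
    intro n hn
    simp only [hw]
    split_ifs with h
    · rfl
    · rw [hdW n hn (by omega), mul_zero]
  have e1 : ∑ n ∈ Icc 1 (27 * J ^ 3), (bx (K' + 1) (lo J) (hi J) n : ℂ) *
      (χ (n : ZMod r) * dW lam J j n) =
      ∑ n ∈ Icc 1 (27 * J ^ 3), (bx (K' + 1) (lo J) (hi J) n : ℂ) * w n := by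
    apply sum_congr rfl
    intro n hn
    rw [hw1 n (mem_Icc.1 hn).1]
  rw [e1, hdyb (K' + 1) (27 * J ^ 3) K (lo J) (hi J) w hX (by
    intro n hn
    simp only [hw]
    rw [if_neg (by omega)])]
  set Bd : ℝ := (J : ℝ) ^ 3 / (Real.log J) ^ (A + (K' + 1) + 1) with hBd
  have hBd0 : 0 ≤ Bd := by positivity
  refine (norm_sum_le _ _).trans ?_
  have e2 : ∀ s ∈ Fintype.piFinset (fun _ : Fin (K' + 1) => range (K + 1)),
      ‖TS (fun l n => if n.Prime ∧ max (⌈lo J l⌉₊ - 1) (2 ^ s l / 2) < n ∧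
        n ≤ min ⌊hi J l⌋₊ (2 ^ s l) then (1 : ℂ) else 0) (fun l => 2 * 2 ^ s l) w‖ ≤ Bd := by
    intro s _
    have h1 := CMS_TS χ (fun l => max (⌈lo J l⌉₊ - 1) (2 ^ s l / 2))
      (fun l => min ⌊hi J l⌋₊ (2 ^ s l)) (fun l => 2 * 2 ^ s l) w hw1
    have h2 := CMS_one χ (lo J) (hi J) s Bd hBd0 hJ1 hbJ
      (fun N a b h1 h2 h3 => hJ j r χ N a b hj hr hrB hχ h1 h2 h3)
    rw [← h1] at h2
    convert h2 using 4
  refine (sum_le_sum e2).trans ?_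
  rw [sum_const, nsmul_eq_mul, Fintype.card_piFinset, prod_const, card_range, card_univ,
    Fintype.card_fin]
  have h3 : (((K + 1) ^ (K' + 1) : ℕ) : ℝ) ≤ Real.log J ^ ((K' + 1) + 1) := by
    push_cast
    have h4 : ((K : ℝ) + 1) ^ (K' + 1) ≤ (6 * Real.log J) ^ (K' + 1) := by
      apply pow_le_pow_left₀ (by positivity)
      push_cast at hK
      exact hK
    calc ((K : ℝ) + 1) ^ (K' + 1) ≤ (6 * Real.log J) ^ (K' + 1) := h4
      _ = 6 ^ (K' + 1) * Real.log J ^ (K' + 1) := by rw [mul_pow]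
      _ ≤ Real.log J * Real.log J ^ (K' + 1) := mul_le_mul_of_nonneg_right hLk (by positivity)
      _ = Real.log J ^ ((K' + 1) + 1) := by ring
  calc (((K + 1) ^ (K' + 1) : ℕ) : ℝ) * Bd ≤ Real.log J ^ ((K' + 1) + 1) * Bd :=
        mul_le_mul_of_nonneg_right h3 hBd0
    _ = (J : ℝ) ^ 3 / (Real.log J) ^ A := by
        rw [hBd, show A + (K' + 1) + 1 = ((K' + 1) + 1) + A by ring, pow_add _ ((K' + 1) + 1) A, ← mul_div_assoc,
          mul_div_mul_left _ _ (pow_ne_zero _ hL0.ne')]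

end Pool.Agent.CA.FP
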